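import Pool.Agent.Q255.L2.StmK

set_option autoImplicit false

/-!
# Project L2: the Bessel function with imaginary order, differential equation and decay
-/

namespace Pool.Agent.Q241.L2

open Filter Topology MeasureTheory Set
open Pool.Agent.Q255.L2

lemma one_add_le_cosh (t : ℝ) : 1 + t ^ 2 / 2 ≤ Real.cosh t := by
  have h1 : Real.cosh t = 1 + 2 * Real.sinh (t / 2) ^ 2 := by
    have h2 := Real.cosh_two_mul (t / 2)
    have h3 := Real.cosh_sq (t / 2)
    rw [show 2 * (t / 2) = t by ring] at h2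
    rw [h2, h3]; ring
  have h4 : (t / 2) ^ 2 ≤ Real.sinh (t / 2) ^ 2 := by
    rw [← sq_abs (t / 2), ← sq_abs (Real.sinh (t / 2)), Real.abs_sinh]
    have := Real.self_le_sinh_iff.2 (abs_nonneg (t / 2))
    gcongr
  rw [h1]; nlinarith

lemma le_cosh (t : ℝ) : t ≤ Real.cosh t := by
  have := one_add_le_cosh t
  nlinarith [sq_nonneg (t - 1)]

lemma bound_k (k : ℕ) {u : ℝ} (hu : 0 < u) (t : ℝ) :
    Real.cosh t ^ k * Real.exp (-(u * Real.cosh t)) ≤
      (k.factorial * (2 / u) ^ k) * Real.exp (-(u / 2) * t) := by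
  have hc : 0 < Real.cosh t := Real.cosh_pos t
  have h1 : (u / 2 * Real.cosh t) ^ k / k.factorial ≤ Real.exp (u / 2 * Real.cosh t) :=
    Real.pow_div_factorial_le_exp _ (by positivity) k
  have hk : (0 : ℝ) < k.factorial := by exact_mod_cast k.factorial_pos
  have h2 : Real.cosh t ^ k ≤ k.factorial * (2 / u) ^ k * Real.exp (u / 2 * Real.cosh t) := by
    have h3 : Real.cosh t ^ k = k.factorial * (2 / u) ^ k * ((u / 2 * Real.cosh t) ^ k / k.factorial) := by
      have h4 : (2 / u) ^ k * (u / 2 * Real.cosh t) ^ k = Real.cosh t ^ k := by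
        rw [← mul_pow]
        congr 1
        field_simp
      calc Real.cosh t ^ k = (2 / u) ^ k * (u / 2 * Real.cosh t) ^ k := h4.symm
        _ = _ := by field_simp
    rw [h3]; gcongr
  calc _ ≤ (k.factorial * (2 / u) ^ k * Real.exp (u / 2 * Real.cosh t)) * Real.exp (-(u * Real.cosh t)) := by
        gcongr
    _ = k.factorial * (2 / u) ^ k * Real.exp (-(u / 2 * Real.cosh t)) := by
        rw [mul_assoc, ← Real.exp_add]; congr 2; ring
    _ ≤ _ := by
        apply mul_le_mul_of_nonneg_left _ (by positivity)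
        apply Real.exp_le_exp.2
        have := le_cosh t
        nlinarith

lemma cosh_int (k : ℕ) {u : ℝ} (hu : 0 < u) :
    Integrable (fun t => Real.cosh t ^ k * Real.exp (-(u * Real.cosh t))) (volume.restrict (Ioi (0 : ℝ))) := by
  have h1 : Integrable (fun t => (k.factorial * (2 / u) ^ k) * Real.exp (-(u / 2) * t))
      (volume.restrict (Ioi (0 : ℝ))) :=
    (exp_neg_integrableOn_Ioi 0 (show 0 < u / 2 by positivity)).const_mul _
  refine h1.mono' ?_ (ae_of_all _ fun t => ?_)
  · apply Continuous.aestronglyMeasurable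
    have := Real.continuous_cosh
    fun_prop
  · have hc : 0 < Real.cosh t := Real.cosh_pos t
    rw [Real.norm_of_nonneg (by positivity)]
    exact bound_k k hu t

/-- the integrands -/
noncomputable def ik (k : ℕ) (T u t : ℝ) : ℝ :=
  Real.cosh t ^ k * (Real.exp (-(u * Real.cosh t)) * Real.cos (T * t))

lemma ik_cont (k : ℕ) (T u : ℝ) : Continuous (ik k T u) := by
  unfold ik
  have := Real.continuous_cosh
  fun_prop

lemma ik_le (k : ℕ) (T u t : ℝ) :
    ‖ik k T u t‖ ≤ Real.cosh t ^ k * Real.exp (-(u * Real.cosh t)) := by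
  have hc : 0 < Real.cosh t := Real.cosh_pos t
  unfold ik
  rw [norm_mul, norm_mul, Real.norm_of_nonneg (by positivity), Real.norm_of_nonneg (Real.exp_pos _).le,
    Real.norm_eq_abs]
  have := Real.abs_cos_le_one (T * t)
  have h2 : Real.exp (-(u * Real.cosh t)) * |Real.cos (T * t)| ≤ Real.exp (-(u * Real.cosh t)) :=
    mul_le_of_le_one_right (Real.exp_pos _).le this
  gcongr

lemma ik_int (k : ℕ) (T : ℝ) {u : ℝ} (hu : 0 < u) :
    Integrable (ik k T u) (volume.restrict (Ioi (0 : ℝ))) :=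
  (cosh_int k hu).mono' (ik_cont k T u).aestronglyMeasurable (ae_of_all _ fun t => ik_le k T u t)

lemma deriv_int (k : ℕ) (T : ℝ) {u : ℝ} (hu : 0 < u) :
    HasDerivAt (fun v => ∫ t in Ioi (0 : ℝ), ik k T v t) (-∫ t in Ioi (0 : ℝ), ik (k + 1) T u t) u := by
  have hs : Metric.ball u (u / 2) ∈ 𝓝 u := Metric.ball_mem_nhds u (by positivity)
  have h := hasDerivAt_integral_of_dominated_loc_of_deriv_le (μ := volume.restrict (Ioi (0 : ℝ)))
    (F := fun v t => ik k T v t) (F' := fun v t => -ik (k + 1) T v t) (x₀ := u)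
    (bound := fun t => Real.cosh t ^ (k + 1) * Real.exp (-(u / 2 * Real.cosh t)))
    hs (Eventually.of_forall fun v => (ik_cont k T v).aestronglyMeasurable) (ik_int k T hu)
    (ik_cont (k + 1) T u).neg.aestronglyMeasurable
    (ae_of_all _ fun t v hv => ?_) (cosh_int (k + 1) (by positivity)) (ae_of_all _ fun t v _ => ?_)
  · have h2 := h.2
    rwa [integral_neg] at h2
  · have hc : 0 < Real.cosh t := Real.cosh_pos t
    rw [norm_neg]
    refine (ik_le (k + 1) T v t).trans ?_
    rw [Metric.mem_ball, Real.dist_eq, abs_lt] at hv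
    apply mul_le_mul_of_nonneg_left _ (by positivity)
    apply Real.exp_le_exp.2
    nlinarith
  · have h1 : HasDerivAt (fun v : ℝ => -(v * Real.cosh t)) (-(1 * Real.cosh t)) v :=
      ((hasDerivAt_id v).mul_const _).neg
    have h2 := (h1.exp.mul_const (Real.cos (T * t))).const_mul (Real.cosh t ^ k)
    refine h2.congr_deriv ?_
    unfold ik
    ring

lemma KB_eq (T : ℝ) : KB T = fun u => ∫ t in Ioi (0 : ℝ), ik 0 T u t := by
  funext u
  unfold KB ik
  simp

lemma KB1_eq (T : ℝ) : KB1 T = fun u => -∫ t in Ioi (0 : ℝ), ik 1 T u t := by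
  funext u
  unfold KB1 ik
  simp

lemma KB2_eq (T : ℝ) : KB2 T = fun u => ∫ t in Ioi (0 : ℝ), ik 2 T u t := by
  funext u
  unfold KB2 ik
  simp

lemma tendsto_k (k : ℕ) {u : ℝ} (hu : 0 < u) :
    Tendsto (fun t => Real.cosh t ^ k * Real.exp (-(u * Real.cosh t))) atTop (𝓝 0) := by
  have h1 : Tendsto (fun t : ℝ => (k.factorial * (2 / u) ^ k) * Real.exp (-(u / 2) * t)) atTop (𝓝 0) := by
    have h2 : Tendsto (fun t : ℝ => Real.exp (-(u / 2) * t)) atTop (𝓝 0) := by
      apply Real.tendsto_exp_atBot.comp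
      exact tendsto_id.const_mul_atTop_of_neg (by linarith)
    have := h2.const_mul (k.factorial * (2 / u) ^ k : ℝ)
    rwa [mul_zero] at this
  refine squeeze_zero (fun t => ?_) (fun t => bound_k k hu t) h1
  have hc : 0 < Real.cosh t := Real.cosh_pos t
  positivity

lemma ode (T : ℝ) {u : ℝ} (hu : 0 < u) :
    u ^ 2 * (∫ t in Ioi (0 : ℝ), ik 2 T u t) - u * (∫ t in Ioi (0 : ℝ), ik 1 T u t) -
      u ^ 2 * (∫ t in Ioi (0 : ℝ), ik 0 T u t) + T ^ 2 * (∫ t in Ioi (0 : ℝ), ik 0 T u t) = 0 := by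
  have hd : ∀ t : ℝ, HasDerivAt (fun t => -(u * Real.sinh t) * (Real.exp (-(u * Real.cosh t)) * Real.cos (T * t)) +
      T * (Real.exp (-(u * Real.cosh t)) * Real.sin (T * t)))
      (u ^ 2 * ik 2 T u t - u * ik 1 T u t - u ^ 2 * ik 0 T u t + T ^ 2 * ik 0 T u t) t := by
    intro t
    have e1 : HasDerivAt (fun t : ℝ => Real.exp (-(u * Real.cosh t)))
        (Real.exp (-(u * Real.cosh t)) * (-(u * Real.sinh t))) t :=
      ((Real.hasDerivAt_cosh t).const_mul u).neg.exp
    have e2 : HasDerivAt (fun t : ℝ => T * t) T t := by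
      simpa using (hasDerivAt_id t).const_mul T
    have e3 : HasDerivAt (fun t : ℝ => Real.cos (T * t)) (-Real.sin (T * t) * T) t := e2.cos
    have e4 : HasDerivAt (fun t : ℝ => Real.sin (T * t)) (Real.cos (T * t) * T) t := e2.sin
    have e5 : HasDerivAt (fun t : ℝ => -(u * Real.sinh t)) (-(u * Real.cosh t)) t :=
      ((Real.hasDerivAt_sinh t).const_mul u).neg
    have e6 := (e5.mul (e1.mul e3)).add ((e1.mul e4).const_mul T)
    refine e6.congr_deriv ?_
    have hs := Real.cosh_sq t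
    unfold ik
    simp only [pow_zero, pow_one, one_mul, Pi.mul_apply]
    rw [hs]
    ring
  have hint : IntegrableOn (fun t => u ^ 2 * ik 2 T u t - u * ik 1 T u t - u ^ 2 * ik 0 T u t + T ^ 2 * ik 0 T u t)
      (Ioi (0 : ℝ)) :=
    ((((ik_int 2 T hu).const_mul _).sub ((ik_int 1 T hu).const_mul _)).sub ((ik_int 0 T hu).const_mul _)).add
      ((ik_int 0 T hu).const_mul _)
  have hlim : Tendsto (fun t => -(u * Real.sinh t) * (Real.exp (-(u * Real.cosh t)) * Real.cos (T * t)) +
      T * (Real.exp (-(u * Real.cosh t)) * Real.sin (T * t))) atTop (𝓝 0) := by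
    have h1 := ((tendsto_k 1 hu).const_mul u).add ((tendsto_k 0 hu).const_mul |T|)
    rw [mul_zero, mul_zero, add_zero] at h1
    refine squeeze_zero_norm (fun t => ?_) h1
    have hc : 0 < Real.cosh t := Real.cosh_pos t
    have h2 : |Real.sinh t| ≤ Real.cosh t := by
      rw [Real.abs_sinh, ← Real.cosh_abs t]
      exact (Real.sinh_lt_cosh _).le
    have he := Real.exp_pos (-(u * Real.cosh t))
    refine (norm_add_le _ _).trans ?_
    rw [norm_mul, norm_mul, norm_mul, norm_mul, norm_neg, norm_mul, Real.norm_of_nonneg hu.le,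
      Real.norm_of_nonneg he.le, Real.norm_eq_abs, Real.norm_eq_abs, Real.norm_eq_abs, Real.norm_eq_abs]
    have h3 := Real.abs_cos_le_one (T * t)
    have h4 := Real.abs_sin_le_one (T * t)
    have h5 : Real.exp (-(u * Real.cosh t)) * |Real.cos (T * t)| ≤ Real.exp (-(u * Real.cosh t)) :=
      mul_le_of_le_one_right he.le h3
    have h6 : Real.exp (-(u * Real.cosh t)) * |Real.sin (T * t)| ≤ Real.exp (-(u * Real.cosh t)) :=
      mul_le_of_le_one_right he.le h4
    calc u * |Real.sinh t| * (Real.exp (-(u * Real.cosh t)) * |Real.cos (T * t)|) +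
          |T| * (Real.exp (-(u * Real.cosh t)) * |Real.sin (T * t)|)
        ≤ u * Real.cosh t * Real.exp (-(u * Real.cosh t)) + |T| * Real.exp (-(u * Real.cosh t)) := by
          gcongr
      _ = _ := by ring
  have h := integral_Ioi_of_hasDerivAt_of_tendsto' (a := (0 : ℝ)) (fun t _ => hd t) hint hlim
  simp only [Real.sinh_zero, mul_zero, neg_zero, zero_mul, Real.sin_zero, add_zero, sub_zero] at h
  rw [integral_add, integral_sub, integral_sub, integral_const_mul, integral_const_mul, integral_const_mul,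
    integral_const_mul] at h
  · exact h
  · exact (ik_int 2 T hu).const_mul _
  · exact (ik_int 1 T hu).const_mul _
  · exact ((ik_int 2 T hu).const_mul _).sub ((ik_int 1 T hu).const_mul _)
  · exact (ik_int 0 T hu).const_mul _
  · exact (((ik_int 2 T hu).const_mul _).sub ((ik_int 1 T hu).const_mul _)).sub ((ik_int 0 T hu).const_mul _)
  · exact (ik_int 0 T hu).const_mul _

lemma gauss_bound (T : ℝ) {u : ℝ} (hu : 0 < u) :
    |∫ t in Ioi (0 : ℝ), ik 0 T u t| ≤ √(Real.pi / (2 * u)) * Real.exp (-u) := by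
  have h1 : ∫ t in Ioi (0 : ℝ), Real.exp (-(u / 2) * t ^ 2) = √(Real.pi / (2 * u)) := by
    rw [integral_gaussian_Ioi]
    have : Real.pi / (u / 2) = 2 ^ 2 * (Real.pi / (2 * u)) := by field_simp
    rw [this, Real.sqrt_mul (by norm_num), Real.sqrt_sq (by norm_num)]
    ring
  have hg : Integrable (fun t : ℝ => Real.exp (-(u / 2) * t ^ 2)) (volume.restrict (Ioi (0 : ℝ))) :=
    (integrable_exp_neg_mul_sq (by positivity)).integrableOn
  have h2 : ∫ t in Ioi (0 : ℝ), Real.exp (-u) * Real.exp (-(u / 2) * t ^ 2) = √(Real.pi / (2 * u)) * Real.exp (-u) := by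
    rw [integral_const_mul, h1, mul_comm]
  rw [← h2, ← Real.norm_eq_abs]
  refine norm_integral_le_of_norm_le (hg.const_mul _) (ae_of_all _ fun t => ?_)
  refine (ik_le 0 T u t).trans ?_
  rw [pow_zero, one_mul, ← Real.exp_add]
  apply Real.exp_le_exp.2
  have := one_add_le_cosh t
  nlinarith

lemma one_bound (T : ℝ) {u : ℝ} (hu : 1 ≤ u) :
    |∫ t in Ioi (0 : ℝ), ik 1 T u t| ≤
      (Real.exp 1 * ∫ t in Ioi (0 : ℝ), Real.cosh t ^ 1 * Real.exp (-(1 * Real.cosh t))) * Real.exp (-u) := by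
  have h2 : ∫ t in Ioi (0 : ℝ), (Real.exp 1 * Real.exp (-u)) * (Real.cosh t ^ 1 * Real.exp (-(1 * Real.cosh t))) =
      (Real.exp 1 * ∫ t in Ioi (0 : ℝ), Real.cosh t ^ 1 * Real.exp (-(1 * Real.cosh t))) * Real.exp (-u) := by
    rw [integral_const_mul]; ring
  rw [← h2, ← Real.norm_eq_abs]
  refine norm_integral_le_of_norm_le ((cosh_int 1 one_pos).const_mul _) (ae_of_all _ fun t => ?_)
  refine (ik_le 1 T u t).trans ?_
  have hc : 1 ≤ Real.cosh t := Real.one_le_cosh t
  have h3 : Real.exp (-(u * Real.cosh t)) ≤ Real.exp 1 * Real.exp (-u) * Real.exp (-(1 * Real.cosh t)) := by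
    rw [← Real.exp_add, ← Real.exp_add]
    apply Real.exp_le_exp.2
    nlinarith
  calc Real.cosh t ^ 1 * Real.exp (-(u * Real.cosh t)) ≤
        Real.cosh t ^ 1 * (Real.exp 1 * Real.exp (-u) * Real.exp (-(1 * Real.cosh t))) := by gcongr
    _ = _ := by ring

/-- Job KODE. -/
theorem kode : S_KODE := by
  refine ⟨fun T u hu => ⟨?_, ?_, ?_⟩, fun T u hu => ?_, ?_⟩
  · rw [KB_eq, KB1_eq]
    exact deriv_int 0 T hu
  · rw [KB1_eq, KB2_eq]
    have := (deriv_int 1 T hu).neg
    rw [neg_neg] at this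
    exact this
  · rw [KB_eq, KB1_eq, KB2_eq]
    have := ode T hu
    linarith
  · rw [KB_eq]
    exact gauss_bound T hu
  · refine ⟨Real.exp 1 * ∫ t in Ioi (0 : ℝ), Real.cosh t ^ 1 * Real.exp (-(1 * Real.cosh t)), ?_, fun T u hu => ?_⟩
    · apply mul_nonneg (Real.exp_pos _).le
      apply integral_nonneg
      intro t
      have hc : 0 < Real.cosh t := Real.cosh_pos t
      positivity
    · rw [KB1_eq]
      simp only [abs_neg]
      exact one_bound T hu

end Pool.Agent.Q241.L2
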