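import Pool.Agent.Q255.L2.StmK

set_option autoImplicit false

/-!
# Project L2: uniform bounds for the Bessel function with imaginary order, by the energy method
-/

namespace Pool.Agent.Q241.L2

open Filter Topology MeasureTheory Set
open Pool.Agent.Q255.L2

/-- Job KBB. -/
theorem kbb (h1 : S_KODE) (h2 : S_KINT) : S_KBB := by
  obtain ⟨hode, hdec0, C1, hC1, hdec1⟩ := h1
  refine ⟨300, by norm_num, fun T hT => ?_⟩
  have hT0 : 0 < T := by linarith
  obtain ⟨hint, htot⟩ := h2 T hT0
  obtain ⟨k, hk⟩ : ∃ k : ℝ → ℝ, k = KB T := ⟨_, rfl⟩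
  obtain ⟨k1, hk1⟩ : ∃ k1 : ℝ → ℝ, k1 = KB1 T := ⟨_, rfl⟩
  obtain ⟨k2, hk2⟩ : ∃ k2 : ℝ → ℝ, k2 = KB2 T := ⟨_, rfl⟩
  have hd : ∀ u : ℝ, 0 < u → HasDerivAt k (k1 u) u := fun u hu => by
    rw [hk, hk1]; exact (hode T u hu).1
  have hd1 : ∀ u : ℝ, 0 < u → HasDerivAt k1 (k2 u) u := fun u hu => by
    rw [hk1, hk2]; exact (hode T u hu).2.1
  have heq : ∀ u : ℝ, 0 < u → u ^ 2 * k2 u + u * k1 u = (u ^ 2 - T ^ 2) * k u := fun u hu => by
    rw [hk, hk1, hk2]; exact (hode T u hu).2.2
  have hb0 : ∀ u : ℝ, 1 ≤ u → |k u| ≤ 2 * Real.exp (-u) := fun u hu => by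
    rw [hk]
    refine (hdec0 T u (by linarith)).trans ?_
    apply mul_le_mul_of_nonneg_right _ (Real.exp_pos _).le
    rw [Real.sqrt_le_left (by norm_num), div_le_iff₀ (by linarith)]
    have := Real.pi_lt_d2
    nlinarith
  have hb1 : ∀ u : ℝ, 1 ≤ u → |k1 u| ≤ C1 * Real.exp (-u) := fun u hu => by
    rw [hk1]; exact hdec1 T u hu
  rw [← hk] at hint htot ⊢
  -- the total energy
  obtain ⟨e, he⟩ : ∃ e, e = Real.exp (Real.pi * T) := ⟨_, rfl⟩
  obtain ⟨E₀, hE₀⟩ : ∃ E₀, E₀ = Real.pi * T / Real.sinh (Real.pi * T) := ⟨_, rfl⟩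
  have hepos : 0 < e := by rw [he]; exact Real.exp_pos _
  have hpi := Real.pi_gt_three
  have hpi2 := Real.pi_lt_d2
  have hsinh : e / 4 ≤ Real.sinh (Real.pi * T) := by
    rw [Real.sinh_eq, ← he]
    have h3 : Real.exp (-(Real.pi * T)) ≤ e / 2 := by
      rw [Real.exp_neg, ← he, inv_le_comm₀ hepos (by positivity)]
      rw [inv_div]
      rw [div_le_iff₀ hepos]
      have h4 : 1 + Real.pi * T ≤ e := by
        rw [he]; linarith [Real.add_one_le_exp (Real.pi * T)]
      have h5 : 4 ≤ e := by nlinarith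
      nlinarith
    linarith
  have hM : e * E₀ ≤ 13 * T := by
    rw [hE₀, ← mul_div_assoc, div_le_iff₀ (by linarith [show 0 < e / 4 by positivity])]
    have h3 : 13 * T * (e / 4) ≤ 13 * T * Real.sinh (Real.pi * T) := by gcongr
    nlinarith [mul_pos hepos hT0]
  -- the energy
  obtain ⟨En, hEn⟩ : ∃ En : ℝ → ℝ, En = fun u => u ^ 2 * k1 u ^ 2 + (T ^ 2 - u ^ 2) * k u ^ 2 := ⟨_, rfl⟩
  have hdE : ∀ u : ℝ, 0 < u → HasDerivAt En (-(2 * (u * k u ^ 2))) u := by
    intro u hu
    rw [hEn]
    have e1 : HasDerivAt (fun u : ℝ => u ^ 2) (2 * u) u := by simpa using hasDerivAt_pow 2 u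
    have e2 : HasDerivAt (fun u : ℝ => k u ^ 2) (2 * k u * k1 u) u := by
      have := (hd u hu).pow 2
      refine this.congr_deriv ?_
      push_cast
      ring
    have e3 : HasDerivAt (fun u : ℝ => k1 u ^ 2) (2 * k1 u * k2 u) u := by
      have := (hd1 u hu).pow 2
      refine this.congr_deriv ?_
      push_cast
      ring
    have e4 := (e1.mul e3).add ((e1.const_sub (T ^ 2)).mul e2)
    refine e4.congr_deriv ?_
    have := heq u hu
    linear_combination (2 * k1 u) * this
  have hexp : Tendsto (fun u : ℝ => u ^ 2 * Real.exp (-u)) atTop (𝓝 0) :=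
    Real.tendsto_pow_mul_exp_neg_atTop_nhds_zero 2
  have hlimE : Tendsto En atTop (𝓝 0) := by
    have h3 : Tendsto (fun u : ℝ => (C1 ^ 2 + 8 * T ^ 2 + 8) * (u ^ 2 * Real.exp (-u))) atTop (𝓝 0) := by
      have := hexp.const_mul (C1 ^ 2 + 8 * T ^ 2 + 8)
      rwa [mul_zero] at this
    apply squeeze_zero_norm' _ h3
    filter_upwards [eventually_ge_atTop 1] with u hu
    rw [hEn, Real.norm_eq_abs]
    have f1 := hb0 u hu
    have f2 := hb1 u hu
    have hx : 0 < Real.exp (-u) := Real.exp_pos _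
    have hx1 : Real.exp (-u) ≤ 1 := Real.exp_le_one_iff.2 (by linarith)
    have g1 : k u ^ 2 ≤ 4 * Real.exp (-u) := by
      rw [← sq_abs]
      calc |k u| ^ 2 ≤ (2 * Real.exp (-u)) ^ 2 := by gcongr
        _ = 4 * Real.exp (-u) * Real.exp (-u) := by ring
        _ ≤ 4 * Real.exp (-u) * 1 := by gcongr
        _ = _ := by ring
    have g2 : k1 u ^ 2 ≤ C1 ^ 2 * Real.exp (-u) := by
      rw [← sq_abs]
      calc |k1 u| ^ 2 ≤ (C1 * Real.exp (-u)) ^ 2 := by gcongr
        _ = C1 ^ 2 * Real.exp (-u) * Real.exp (-u) := by ring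
        _ ≤ C1 ^ 2 * Real.exp (-u) * 1 := by gcongr
        _ = _ := by ring
    have hu2 : 1 ≤ u ^ 2 := one_le_pow₀ hu
    refine (abs_add_le _ _).trans ?_
    rw [abs_mul, abs_mul, abs_of_nonneg (sq_nonneg u), abs_of_nonneg (sq_nonneg (k1 u)),
      abs_of_nonneg (sq_nonneg (k u))]
    have g3 : |T ^ 2 - u ^ 2| ≤ (T ^ 2 + 1) * u ^ 2 := by
      rw [abs_le]
      constructor
      · nlinarith [sq_nonneg T]
      · nlinarith [sq_nonneg T]
    calc u ^ 2 * k1 u ^ 2 + |T ^ 2 - u ^ 2| * k u ^ 2 ≤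
          u ^ 2 * (C1 ^ 2 * Real.exp (-u)) + ((T ^ 2 + 1) * u ^ 2) * (4 * Real.exp (-u)) := by
          gcongr
      _ = (C1 ^ 2 + 4 * T ^ 2 + 4) * (u ^ 2 * Real.exp (-u)) := by ring
      _ ≤ _ := by
          apply mul_le_mul_of_nonneg_right _ (by positivity)
          nlinarith [sq_nonneg T]
  have hint2 : IntegrableOn (fun u => 2 * (u * k u ^ 2)) (Ioi 0) := hint.const_mul 2
  have hEint : ∀ u : ℝ, 0 < u → En u = ∫ v in Ioi u, 2 * (v * k v ^ 2) := by
    intro u hu
    have h3 := integral_Ioi_of_hasDerivAt_of_tendsto' (a := u) (fun v hv => hdE v (hu.trans_le hv))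
      ((hint2.mono_set (Ioi_subset_Ioi hu.le)).neg) hlimE
    rw [integral_neg] at h3
    linarith
  have hE0 : ∀ u : ℝ, 0 < u → 0 ≤ En u := by
    intro u hu
    rw [hEint u hu]
    apply setIntegral_nonneg measurableSet_Ioi
    intro v hv
    have : 0 < v := hu.trans hv
    positivity
  have hE1 : ∀ u : ℝ, 0 < u → En u ≤ E₀ := by
    intro u hu
    rw [hEint u hu, hE₀, ← htot]
    apply setIntegral_mono_set hint2 _ (Ioi_subset_Ioi hu.le).eventuallyLE
    filter_upwards [ae_restrict_mem measurableSet_Ioi] with v hv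
    have : 0 < v := hv
    positivity
  have hEn' : ∀ u, En u = u ^ 2 * k1 u ^ 2 + (T ^ 2 - u ^ 2) * k u ^ 2 := fun u => by rw [hEn]
  -- monotonicity to the right of `T`
  have hP : ∀ u : ℝ, T ≤ u → k u * k1 u ≤ 0 := by
    have hdP : ∀ u : ℝ, 0 < u → HasDerivAt (fun u => u * (k u * k1 u)) (1 * (k u * k1 u) + u * (k1 u * k1 u + k u * k2 u)) u :=
      fun u hu => (hasDerivAt_id u).mul ((hd u hu).mul (hd1 u hu))
    have hmono : MonotoneOn (fun u => u * (k u * k1 u)) (Ici T) := by
      apply monotoneOn_of_deriv_nonneg (convex_Ici T)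
      · intro u hu
        exact (hdP u (hT0.trans_le hu)).continuousAt.continuousWithinAt
      · intro u hu
        rw [interior_Ici] at hu
        exact (hdP u (hT0.trans hu)).differentiableAt.differentiableWithinAt
      · intro u hu
        rw [interior_Ici] at hu
        have hu0 : 0 < u := hT0.trans hu
        have huT : T < u := hu
        rw [(hdP u hu0).deriv]
        have h3 := heq u hu0
        have h4 : u * (1 * (k u * k1 u) + u * (k1 u * k1 u + k u * k2 u)) =
            u ^ 2 * k1 u ^ 2 + (u ^ 2 - T ^ 2) * k u ^ 2 := by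
          linear_combination (k u) * h3
        have h5 : 0 ≤ u ^ 2 * k1 u ^ 2 + (u ^ 2 - T ^ 2) * k u ^ 2 := by
          have : 0 ≤ u ^ 2 - T ^ 2 := by nlinarith
          positivity
        rw [← h4] at h5
        exact nonneg_of_mul_nonneg_right h5 hu0
    have hlimP : Tendsto (fun u => u * (k u * k1 u)) atTop (𝓝 0) := by
      have h3 : Tendsto (fun u : ℝ => (2 * C1) * (u ^ 2 * Real.exp (-u))) atTop (𝓝 0) := by
        have := hexp.const_mul (2 * C1)
        rwa [mul_zero] at this
      apply squeeze_zero_norm' _ h3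
      filter_upwards [eventually_ge_atTop 1] with u hu
      have f1 := hb0 u hu
      have f2 := hb1 u hu
      have hx1 : Real.exp (-u) ≤ 1 := Real.exp_le_one_iff.2 (by linarith)
      rw [norm_mul, norm_mul, Real.norm_of_nonneg (by linarith : (0 : ℝ) ≤ u), Real.norm_eq_abs, Real.norm_eq_abs]
      calc u * (|k u| * |k1 u|) ≤ u * ((2 * Real.exp (-u)) * (C1 * Real.exp (-u))) := by gcongr
        _ = (2 * C1) * (u * (Real.exp (-u) * Real.exp (-u))) := by ring
        _ ≤ (2 * C1) * (u ^ 2 * (1 * Real.exp (-u))) := by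
            gcongr
            nlinarith
        _ = _ := by ring
    intro u hu
    have h3 : u * (k u * k1 u) ≤ 0 := by
      apply ge_of_tendsto hlimP
      filter_upwards [eventually_ge_atTop u] with v hv
      exact hmono hu (hu.trans hv) hv
    by_contra h4
    push Not at h4
    have : 0 < u := hT0.trans_le hu
    nlinarith [mul_pos this h4]
  have hdk2 : ∀ u : ℝ, 0 < u → HasDerivAt (fun u : ℝ => k u ^ 2) (2 * (k u * k1 u)) u := by
    intro u hu
    have := (hd u hu).pow 2
    refine this.congr_deriv ?_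
    push_cast
    ring
  have hanti : AntitoneOn (fun u => k u ^ 2) (Ici T) := by
    apply antitoneOn_of_deriv_nonpos (convex_Ici T)
    · intro u hu
      exact (hdk2 u (hT0.trans_le hu)).continuousAt.continuousWithinAt
    · intro u hu
      rw [interior_Ici] at hu
      exact (hdk2 u (hT0.trans hu)).differentiableAt.differentiableWithinAt
    · intro u hu
      rw [interior_Ici] at hu
      rw [(hdk2 u (hT0.trans hu)).deriv]
      have := hP u (le_of_lt hu)
      linarith
  have hright : ∀ u : ℝ, T ≤ u → (u ^ 2 - T ^ 2) * k u ^ 2 ≤ E₀ := by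
    intro u hu
    have hdG : ∀ v : ℝ, 0 < v → HasDerivAt (fun v => En v + v ^ 2 * k u ^ 2) (-(2 * (v * k v ^ 2)) + 2 * v * k u ^ 2) v := by
      intro v hv
      have e1 : HasDerivAt (fun v : ℝ => v ^ 2) (2 * v) v := by simpa using hasDerivAt_pow 2 v
      exact (hdE v hv).add (e1.mul_const _)
    have hG : AntitoneOn (fun v => En v + v ^ 2 * k u ^ 2) (Icc T u) := by
      apply antitoneOn_of_deriv_nonpos (convex_Icc T u)
      · intro v hv
        exact (hdG v (hT0.trans_le hv.1)).continuousAt.continuousWithinAt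
      · intro v hv
        rw [interior_Icc] at hv
        exact (hdG v (hT0.trans hv.1)).differentiableAt.differentiableWithinAt
      · intro v hv
        rw [interior_Icc] at hv
        have hv0 : 0 < v := hT0.trans hv.1
        rw [(hdG v hv0).deriv]
        have h3 : k u ^ 2 ≤ k v ^ 2 := hanti hv.1.le hu hv.2.le
        nlinarith
    have h3 := hG (left_mem_Icc.2 hu) (right_mem_Icc.2 hu) hu
    simp only at h3
    have h4 := hE0 u (hT0.trans_le hu)
    have h5 := hE1 T hT0
    nlinarith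
  -- the weights
  have hA1 : ∀ u : ℝ, 0 < u → u < T → e * k u ^ 2 * (T - u) ≤ 13 := by
    intro u hu huT
    have h3 : (T ^ 2 - u ^ 2) * k u ^ 2 ≤ E₀ := by
      have h4 := hE1 u hu
      rw [hEn'] at h4
      have : 0 ≤ u ^ 2 * k1 u ^ 2 := by positivity
      linarith
    have h5 : e * k u ^ 2 * (T - u) * (T + u) ≤ 13 * (T + u) := by
      have h6 := mul_le_mul_of_nonneg_left h3 hepos.le
      nlinarith
    exact le_of_mul_le_mul_right h5 (by linarith)
  have hA2 : ∀ u : ℝ, T ≤ u → e * k u ^ 2 * (u - T) ≤ 13 := by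
    intro u hu
    have h3 := hright u hu
    have h5 : e * k u ^ 2 * (u - T) * (T + u) ≤ 13 * (T + u) := by
      have h6 := mul_le_mul_of_nonneg_left h3 hepos.le
      nlinarith
    exact le_of_mul_le_mul_right h5 (by linarith)
  have hE00 : 0 ≤ E₀ := (hE0 T hT0).trans (hE1 T hT0)
  have hB : ∀ u : ℝ, 0 < u → e * (u * k1 u) ^ 2 ≤ 36 * T := by
    intro u hu
    have h3 : (u * k1 u) ^ 2 ≤ 2 * E₀ := by
      have h4 := hE1 u hu
      rw [hEn'] at h4
      rcases le_total u T with h5 | h5
      · have : 0 ≤ (T ^ 2 - u ^ 2) * k u ^ 2 := by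
          have : 0 ≤ T ^ 2 - u ^ 2 := by nlinarith
          positivity
        nlinarith
      · have := hright u h5
        nlinarith
    have h6 := mul_le_mul_of_nonneg_left h3 hepos.le
    nlinarith
  obtain ⟨s, hs⟩ : ∃ s, s = Real.exp (Real.pi * T / 2) := ⟨_, rfl⟩
  have hs0 : 0 < s := by rw [hs]; exact Real.exp_pos _
  have hse : s ^ 2 = e := by
    rw [hs, he, ← Real.exp_nat_mul]
    congr 1
    push_cast
    ring
  have hsT : √T ^ 2 = T := Real.sq_sqrt hT0.le
  have hsB : ∀ u : ℝ, 0 < u → |u * k1 u| ≤ 6 * √T / s := by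
    intro u hu
    rw [le_div_iff₀ hs0]
    refine (pow_le_pow_iff_left₀ (by positivity) (by positivity) two_ne_zero).1 ?_
    rw [mul_pow, sq_abs, hse, mul_pow 6, hsT]
    have := hB u hu
    linarith
  have hLip : ∀ u u' : ℝ, 0 < u → 0 < u' → |k u - k u'| ≤ 6 * √T / s * |Real.log u - Real.log u'| := by
    intro u u' hu hu'
    have h3 := Convex.norm_image_sub_le_of_norm_hasDerivWithin_le (f := fun x => k (Real.exp x))
      (f' := fun x => k1 (Real.exp x) * Real.exp x) (C := 6 * √T / s) (s := univ) (x := Real.log u') (y := Real.log u)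
      (fun x _ => ((hd _ (Real.exp_pos x)).comp x (Real.hasDerivAt_exp x)).hasDerivWithinAt)
      (fun x _ => by
        rw [Real.norm_eq_abs, mul_comm]
        exact hsB _ (Real.exp_pos x)) convex_univ (mem_univ _) (mem_univ _)
    simp only [Real.exp_log hu, Real.exp_log hu', Real.norm_eq_abs] at h3
    exact h3
  -- near `T`
  have hnear : ∀ u : ℝ, T - 1 / 2 ≤ u → e * k u ^ 2 ≤ 144 := by
    have hmid : ∀ u : ℝ, T - 1 / 2 ≤ u → u ≤ T → e * k u ^ 2 ≤ 144 := by
      intro u hu1 hu2
      have hu0 : 0 < u := by linarith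
      have hv0 : 0 < T - 1 / 2 := by linarith
      have h3 : s * |k (T - 1 / 2)| ≤ 6 := by
        refine (pow_le_pow_iff_left₀ (by positivity) (by norm_num) two_ne_zero).1 ?_
        rw [mul_pow, sq_abs, hse]
        have := hA1 (T - 1 / 2) hv0 (by linarith)
        nlinarith
      have h4 := hLip u (T - 1 / 2) hu0 hv0
      have h5 : |Real.log u - Real.log (T - 1 / 2)| ≤ 1 / T := by
        rw [← Real.log_div hu0.ne' hv0.ne', abs_of_nonneg (Real.log_nonneg (by
          rw [le_div_iff₀ hv0]; linarith))]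
        have h6 := Real.log_le_sub_one_of_pos (show 0 < u / (T - 1 / 2) by positivity)
        refine h6.trans ?_
        rw [div_sub_one hv0.ne', div_le_div_iff₀ hv0 hT0]
        nlinarith
      have h7 : s * |k u - k (T - 1 / 2)| ≤ 6 := by
        calc s * |k u - k (T - 1 / 2)| ≤ s * (6 * √T / s * |Real.log u - Real.log (T - 1 / 2)|) := by gcongr
          _ = 6 * √T * |Real.log u - Real.log (T - 1 / 2)| := by field_simp
          _ ≤ 6 * √T * (1 / T) := by gcongr
          _ ≤ 6 := by
              have h8 : √T ≤ T := by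
                rw [Real.sqrt_le_left (by linarith)]
                nlinarith
              rw [mul_one_div, div_le_iff₀ hT0]
              linarith
      have h8 : s * |k u| ≤ 12 := by
        have h9 : |k u| ≤ |k u - k (T - 1 / 2)| + |k (T - 1 / 2)| := by
          have := abs_add_le (k u - k (T - 1 / 2)) (k (T - 1 / 2))
          rwa [sub_add_cancel] at this
        calc s * |k u| ≤ s * (|k u - k (T - 1 / 2)| + |k (T - 1 / 2)|) := by gcongr
          _ = s * |k u - k (T - 1 / 2)| + s * |k (T - 1 / 2)| := by ring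
          _ ≤ 12 := by linarith
      have h10 : (s * |k u|) ^ 2 ≤ 12 ^ 2 := by gcongr
      rw [mul_pow, sq_abs, hse] at h10
      linarith
    intro u hu
    rcases le_total u T with h3 | h3
    · exact hmid u hu h3
    · have h4 : k u ^ 2 ≤ k T ^ 2 := hanti (mem_Ici.2 le_rfl) h3 h3
      have h5 := hmid T (by linarith) le_rfl
      nlinarith
  constructor
  · intro u hu
    rw [← he, le_div_iff₀ (by positivity)]
    rcases lt_or_ge u (T - 1 / 2) with h3 | h3
    · have h4 := hA1 u hu (by linarith)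
      rw [abs_of_pos (by linarith : 0 < T - u)]
      have h5 : 0 ≤ e * k u ^ 2 := by positivity
      nlinarith
    · rcases le_total u (T + 1) with h6 | h6
      · have h4 := hnear u h3
        have h5 : |T - u| ≤ 1 := by
          rw [abs_le]; constructor <;> linarith
        have h7 : 0 ≤ e * k u ^ 2 := by positivity
        have h8 := abs_nonneg (T - u)
        nlinarith
      · have h4 := hA2 u (by linarith)
        rw [abs_of_nonpos (by linarith : T - u ≤ 0)]
        have h5 : 0 ≤ e * k u ^ 2 := by positivity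
        nlinarith
  · intro u u' hu hu'
    have h3 := hLip u u' hu hu'
    rw [← hs]
    calc s * |k u - k u'| ≤ s * (6 * √T / s * |Real.log u - Real.log u'|) := by gcongr
      _ = 6 * √T * |Real.log u - Real.log u'| := by field_simp
      _ ≤ _ := by gcongr; norm_num

end Pool.Agent.Q241.L2
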